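import Pool.Agent.Lamp76.Tree

set_option autoImplicit false

namespace Pool.Agent.Lamp76

open HTree

/-- the two special labels `0` (run) and `E` (end) -/
def SP {Q : Type} [Zero Q] (E a : Q) : Prop := a = 0 ∨ a = E

/-- labels and data on the boxes `(V, w)` -/
structure Fields {Q : Type} (T1 T2 : HTree Q) (ι 𝒞 : Type) where
  al : ι → T1.V → T2.V → Q
  be : ι → T1.V → T2.V → Q
  S : ι → T1.V → T2.V → Q × 𝒞
  T : ι → T1.V → T2.V → Q × 𝒞
  C : ι → ι → T1.V → T2.V → 𝒞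

namespace Fields

variable {Q : Type} {T1 T2 : HTree Q} {ι 𝒞 : Type}

def swap (F : Fields T1 T2 ι 𝒞) : Fields T2 T1 ι 𝒞 where
  al y w V := F.be y V w
  be x w V := F.al x V w
  S y w V := F.T y V w
  T x w V := F.S x V w
  C y x w V := F.C x y V w

/-- label of the vertex `V` in its parent, seen from `w` -/
def lab [Add Q] (F : Fields T1 T2 ι 𝒞) (x : ι) (V : T1.V) (w : T2.V) : Q :=
  T1.idx V + F.al x (T1.par V) w

end Fields

/-- one half of the rules, at the boxes `P` -/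
structure Half {Q : Type} [AddCommGroup Q] {T1 T2 : HTree Q} {ι 𝒞 : Type} (E : Q)
    (F : Fields T1 T2 ι 𝒞) (Rv Rs : Q × 𝒞 → Q × 𝒞 → Prop) (P : T1.V → T2.V → Prop) : Prop where
  h0 : ∀ x x' V w, P V w → 1 ≤ T1.lev V + T2.lev w → x ≠ x' →
    ¬ SP E (F.al x V w + F.al x' V w)
  h1 : ∀ x V w, P (T1.par V) w → 0 ≤ T1.lev V + T2.lev w → ¬ SP E (F.lab x V w) →
    (F.S x V w).1 = F.lab x V w
  h2S : ∀ x V w, P (T1.par V) w → 0 ≤ T1.lev V + T2.lev w → F.lab x V w = 0 →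
    F.S x V w = F.S x (T1.par V) w
  h2C : ∀ x y V w, P (T1.par V) w → 0 ≤ T1.lev V + T2.lev w → F.lab x V w = 0 →
    F.C x y V w = F.C x y (T1.par V) w
  h3 : ∀ x y V w, P (T1.par V) w → 0 ≤ T1.lev V + T2.lev w → ¬ SP E (F.lab x V w) →
    F.C x y V w = (F.T y V w).2
  h4 : ∀ y V w, P (T1.par V) w → 0 ≤ T1.lev V + T2.lev w → F.lab y V w ≠ E →
    Rv (F.T y V w) (F.T y (T1.par V) w)
  h5 : ∀ y V V' w, P (T1.par V) w → 0 ≤ T1.lev V + T2.lev w → T1.par V = T1.par V' →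
    F.lab y V w ≠ E → F.lab y V' w ≠ E → Rs (F.T y V w) (F.T y V' w)

/-- one half of the rules and of the links -/
structure HalfL {Q : Type} [AddCommGroup Q] {T1 T2 : HTree Q} {ι 𝒞 : Type} (E : Q)
    (F : Fields T1 T2 ι 𝒞) (Rv Rs : Q × 𝒞 → Q × 𝒞 → Prop) (P : T1.V → T2.V → Prop) : Prop
    extends Half E F Rv Rs P where
  link : ∀ x V w, P (T1.par V) w → 1 ≤ T1.lev V + T2.lev w → F.lab x V w ≠ E →
    F.be x V w = F.be x (T1.par V) w

/-- the data of the island construction -/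
structure Isl {Q : Type} (T1 T2 : HTree Q) (ι 𝒞 : Type) where
  A : T1.V
  B : T2.V
  X : Fields T1 T2 ι 𝒞
  ab : ι → T1.V → Q
  bb : ι → T2.V → Q
  EA : ι → T1.V
  EB : ι → T2.V
  K : T1.V → T2.V → 𝒞
  chT : Q × 𝒞 → ℤ → Q × 𝒞
  chS : Q × 𝒞 → ℤ → Q × 𝒞

open Classical in
/-- swap `0` and `E` at the corner -/
noncomputable def cut {Q : Type} [AddCommGroup Q] (E i a : Q) : Q := if i + a = 0 then a + E else a

open Classical in
/-- projection to the window -/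
noncomputable def hat {Q : Type} {T : HTree Q} (B w : T.V) : T.V := if T.le w B then w else T.par B

namespace Isl

variable {Q : Type} [AddCommGroup Q] {T1 T2 : HTree Q} {ι 𝒞 : Type}

def swap (D : Isl T1 T2 ι 𝒞) : Isl T2 T1 ι 𝒞 where
  A := D.B
  B := D.A
  X := D.X.swap
  ab := D.bb
  bb := D.ab
  EA := D.EB
  EB := D.EA
  K w V := D.K V w
  chT := D.chS
  chS := D.chT

variable (E : Q)

/-- the condition under which the labels of `X` are used at `V` -/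
def cond (D : Isl T1 T2 ι 𝒞) (x : ι) (V : T1.V) (w : T2.V) : Prop :=
  (T1.le V D.A ∨ V = T1.par D.A) ∧ 0 ≤ T1.lev V + T2.lev D.B ∧ T2.le w (D.EB x)

open Classical in
noncomputable def al (D : Isl T1 T2 ι 𝒞) (x : ι) (V : T1.V) (w : T2.V) : Q :=
  if D.cond x V w then
    (if V = T1.par D.A then cut E (T1.idx D.A) (D.X.al x V (hat D.B w)) else D.X.al x V (hat D.B w))
  else D.ab x V

noncomputable def lab (D : Isl T1 T2 ι 𝒞) (x : ι) (V : T1.V) (w : T2.V) : Q :=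
  T1.idx V + D.al E x (T1.par V) w

noncomputable def end1 (D : Isl T1 T2 ι 𝒞) (x : ι) (V : T1.V) (w : T2.V) : T1.V :=
  T1.runEnd (fun V' => D.lab E x V' w) V

open Classical in
noncomputable def JS (D : Isl T1 T2 ι 𝒞) (x : ι) (V : T1.V) (w : T2.V) : Q × 𝒞 :=
  if T1.le V D.A ∧ 0 ≤ T1.lev V + T2.lev D.B ∧ T2.le w (D.EB x) then
    D.chS (D.X.S x V D.B) (T2.lev w - T2.lev D.B)
  else (0, D.K V w)

/-- the region where the fields `X` are used -/
def reg (D : Isl T1 T2 ι 𝒞) (V : T1.V) (w : T2.V) : Prop :=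
  T1.le V (T1.par D.A) ∧ T2.le w (T2.par D.B)

def inI (D : Isl T1 T2 ι 𝒞) (V : T1.V) (w : T2.V) : Prop := T1.le V D.A ∧ T2.le w D.B

open Classical in
noncomputable def S (D : Isl T1 T2 ι 𝒞) (x : ι) (V : T1.V) (w : T2.V) : Q × 𝒞 :=
  if D.inI V w then D.X.S x V w
  else if D.lab E x (D.end1 E x V w) w = E then D.JS x (D.end1 E x V w) w
  else (D.lab E x (D.end1 E x V w) w, D.K (D.end1 E x V w) w)

open Classical in
noncomputable def C (D : Isl T1 T2 ι 𝒞) (x y : ι) (V : T1.V) (w : T2.V) : 𝒞 :=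
  if D.inI V w then D.X.C x y V w
  else if D.lab E x (D.end1 E x V w) w = E then
    (if D.swap.lab E y (D.swap.end1 E y w V) V = E then
      D.K (D.end1 E x V w) (D.swap.end1 E y w V)
    else (D.JS x (D.end1 E x V w) (D.swap.end1 E y w V)).2)
  else
    (if D.swap.lab E y (D.swap.end1 E y w V) V = E then
      (D.swap.JS y (D.swap.end1 E y w V) (D.end1 E x V w)).2
    else D.K (D.end1 E x V w) (D.swap.end1 E y w V))

noncomputable def z (D : Isl T1 T2 ι 𝒞) : Fields T1 T2 ι 𝒞 where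
  al x V w := D.al E x V w
  be y V w := D.swap.al E y w V
  S x V w := D.S E x V w
  T y V w := D.swap.S E y w V
  C x y V w := D.C E x y V w

theorem swap_swap (D : Isl T1 T2 ι 𝒞) : D.swap.swap = D := rfl

theorem inI_swap (D : Isl T1 T2 ι 𝒞) (V : T1.V) (w : T2.V) : D.swap.inI w V ↔ D.inI V w :=
  and_comm

theorem C_swap (D : Isl T1 T2 ι 𝒞) (x y : ι) (V : T1.V) (w : T2.V) :
    D.swap.C E y x w V = D.C E x y V w := by
  unfold C
  rw [swap_swap, propext (D.inI_swap V w)]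
  split_ifs <;> rfl

theorem z_swap (D : Isl T1 T2 ι 𝒞) : D.swap.z E = (D.z E).swap := by
  unfold z Fields.swap
  congr 1
  funext y x w V
  exact C_swap E D x y V w

/-- one half of the hypotheses -/
structure OKh (D : Isl T1 T2 ι 𝒞) (Rv Rs : Q × 𝒞 → Q × 𝒞 → Prop) : Prop where
  hX : HalfL E D.X Rv Rs D.reg
  bg1 : ∀ x x' V, x ≠ x' → ¬ SP E (D.ab x V + D.ab x' V)
  ea : ∀ x, T1.le (T1.par D.A) (D.EA x)
  bg2 : ∀ x, T1.idx (D.EA x) + D.ab x (T1.par (D.EA x)) = E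
  bg3 : ∀ x x' V, (T1.le V D.A ∨ V = T1.par D.A) → 0 ≤ T1.lev V + T2.lev D.B → x ≠ x' →
    ¬ SP E (D.ab x' V + D.X.al x V (T2.par D.B))
  bg4 : ∀ x V, ∃ N : ℕ, ∀ n, N ≤ n → T1.idx (T1.par^[n] V) + D.ab x (T1.par^[n + 1] V) ≠ 0
  k1 : ∀ q V w, 0 ≤ T1.lev V + T2.lev w → Rv (q, D.K V w) (q, D.K (T1.par V) w)
  k1' : ∀ q V V' w, 0 ≤ T1.lev V + T2.lev w → T1.par V = T1.par V' →
    Rs (q, D.K V w) (q, D.K V' w)
  k2 : ∀ y V w, T1.le V D.A → T2.le w D.B → 0 ≤ T1.lev V + T2.lev w →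
    ¬ SP E (D.X.swap.lab y w V) → (D.X.T y V w).2 = D.K V w
  ch0 : ∀ c, D.chT c 0 = c
  ch1 : ∀ c n, Rv (D.chT c n) (D.chT c (n + 1))
  rs : ∀ c, Rs c c

end Isl

end Pool.Agent.Lamp76
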