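import Pool.Agent.Lamp76.Island

set_option autoImplicit false

namespace Pool.Agent.Lamp76

open HTree

section alg

variable {Q : Type} [AddCommGroup Q] {E : Q}

theorem SP_add (hc : ∀ a : Q, a + a = 0) {a b : Q} (ha : SP E a) (hb : SP E b) : SP E (a + b) := by
  rcases ha with rfl | rfl <;> rcases hb with rfl | rfl
  · left; simp
  · right; simp
  · right; simp
  · left; exact hc _

theorem SP_add_iff (hc : ∀ a : Q, a + a = 0) {a b : Q} (hb : SP E b) : SP E (a + b) ↔ SP E a := by
  constructor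
  · intro h
    have := SP_add hc h hb
    rwa [add_assoc, hc, add_zero] at this
  · intro h
    exact SP_add hc h hb

theorem cut_spec (i a : Q) : ∃ s, SP E s ∧ cut E i a = a + s := by
  unfold cut
  split_ifs
  · exact ⟨E, Or.inr rfl, rfl⟩
  · exact ⟨0, Or.inl rfl, by simp⟩

theorem SP_add_cut (hc : ∀ a : Q, a + a = 0) (b i a : Q) : SP E (b + cut E i a) ↔ SP E (b + a) := by
  obtain ⟨s, hs, h⟩ := cut_spec (E := E) i a
  rw [h, ← add_assoc]
  exact SP_add_iff hc hs

theorem SP_cut_add (hc : ∀ a : Q, a + a = 0) (b i a : Q) : SP E (cut E i a + b) ↔ SP E (a + b) := by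
  rw [add_comm, SP_add_cut hc, add_comm]

theorem cut_ne_zero (hE : E ≠ 0) (i a : Q) : i + cut E i a ≠ 0 := by
  unfold cut
  split_ifs with h
  · rw [← add_assoc, h, zero_add]
    exact hE
  · exact h

theorem cut_ne_E {i a : Q} (h : i + cut E i a ≠ E) :
    ¬ SP E (i + a) ∧ cut E i a = a := by
  unfold cut at h ⊢
  split_ifs at h ⊢ with h1
  · rw [← add_assoc, h1, zero_add] at h
    exact absurd rfl h
  · exact ⟨fun h2 => h2.elim h1 h, rfl⟩

end alg

section hat

variable {Q : Type} {T : HTree Q}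

theorem hat_of_le {B w : T.V} (h : T.le w B) : hat B w = w := by
  unfold hat; rw [if_pos h]

theorem hat_of_not_le {B w : T.V} (h : ¬ T.le w B) : hat B w = T.par B := by
  unfold hat; rw [if_neg h]

theorem ne_par_of_le {V A : T.V} (h : T.le V A) : V ≠ T.par A := by
  rintro rfl
  exact not_par_le A h

end hat

namespace Isl

variable {Q : Type} [AddCommGroup Q] {T1 T2 : HTree Q} {ι 𝒞 : Type} {E : Q}
  {D : Isl T1 T2 ι 𝒞} {Rv Rs Rv' Rs' : Q × 𝒞 → Q × 𝒞 → Prop}

theorem par_mono {T : HTree Q} {u v : T.V} (h : T.le u v) : T.le (T.par u) (T.par v) := by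
  obtain ⟨n, rfl⟩ := h
  exact ⟨n, by rw [← Function.iterate_succ_apply, Function.iterate_succ_apply']⟩

theorem reg_of (D : Isl T1 T2 ι 𝒞) {V : T1.V} {w : T2.V} (hV : T1.le V D.A)
    (hw : T2.le w (T2.par D.B)) : D.reg (T1.par V) w := ⟨par_mono hV, hw⟩

theorem reg_of' (D : Isl T1 T2 ι 𝒞) {V : T1.V} {w : T2.V} (hV : T1.le V (T1.par D.A))
    (hw : T2.le w D.B) : D.swap.reg (T2.par w) V := ⟨par_mono hw, hV⟩

theorem le_parB {T : HTree Q} {w B : T.V} (h : T.le w B) : T.le w (T.par B) := le_trans h (le_par _)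

/-- labels seen from inside the window -/
theorem al_of_le (h2 : OKh E D.swap Rv' Rs') {x : ι} {V : T1.V} {w : T2.V}
    (hV : T1.le V D.A) (hw : T2.le w D.B) (hs : 0 ≤ T1.lev V + T2.lev w) :
    D.al E x V w = D.X.al x V w := by
  have hc : D.cond x V w := by
    refine ⟨Or.inl hV, ?_, ?_⟩
    · have := lev_le hw
      omega
    · exact le_trans hw (le_trans (le_par _) (h2.ea x))
  unfold al
  rw [if_pos hc, if_neg (ne_par_of_le hV), hat_of_le hw]

theorem al_of_corner (h2 : OKh E D.swap Rv' Rs') {x : ι} {w : T2.V}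
    (hw : T2.le w D.B) (hs : 0 ≤ T1.lev (T1.par D.A) + T2.lev w) :
    D.al E x (T1.par D.A) w = cut E (T1.idx D.A) (D.X.al x (T1.par D.A) w) := by
  have hc : D.cond x (T1.par D.A) w := by
    refine ⟨Or.inr rfl, ?_, ?_⟩
    · have := lev_le hw
      omega
    · exact le_trans hw (le_trans (le_par _) (h2.ea x))
  unfold al
  rw [if_pos hc, if_pos rfl, hat_of_le hw]

/-- if the label is not `E`, then `V` and its parent lie on the same side of `EA` -/
theorem le_EA_iff (h1 : OKh E D Rv Rs) {y : ι} {V : T1.V} {w : T2.V}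
    (hl : D.lab E y V w ≠ E) : T1.le V (D.EA y) ↔ T1.le (T1.par V) (D.EA y) := by
  constructor
  · intro h
    by_contra hn
    have hV := eq_of_le_not_par h hn
    apply hl
    unfold lab al
    rw [if_neg]
    · rw [hV]
      exact h1.bg2 y
    · rintro ⟨h3, -⟩
      rw [hV] at h3
      have h4 := lev_le (h1.ea y)
      rw [T1.lev_par] at h4
      rcases h3 with h3 | h3
      · have := lev_le h3
        rw [T1.lev_par] at this
        omega
      · have := congrArg T1.lev h3
        rw [T1.lev_par, T1.lev_par] at this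
        omega
  · exact le_of_par_le

/-- the view of the second tree does not change along an edge whose label is not `E` -/
theorem view (h1 : OKh E D Rv Rs) (h2 : OKh E D.swap Rv' Rs') {y : ι} {V : T1.V} {w : T2.V}
    (hn : ¬ D.inI V w) (hs : 0 ≤ T1.lev V + T2.lev w) (hl : D.lab E y V w ≠ E) (n : ℕ) :
    D.swap.al E y (T2.par^[n + 1] w) V = D.swap.al E y (T2.par^[n + 1] w) (T1.par V) := by
  have hiff := le_EA_iff h1 hl
  have hcond : D.swap.cond y (T2.par^[n + 1] w) V ↔
      D.swap.cond y (T2.par^[n + 1] w) (T1.par V) := by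
    unfold cond
    exact and_congr_right fun _ => and_congr_right fun _ => hiff
  unfold al
  by_cases hc : D.swap.cond y (T2.par^[n + 1] w) V
  · rw [if_pos hc, if_pos (hcond.1 hc)]
    have key : D.swap.X.al y (T2.par^[n + 1] w) (hat D.swap.B V) =
        D.swap.X.al y (T2.par^[n + 1] w) (hat D.swap.B (T1.par V)) := by
      change D.X.be y (hat D.A V) (T2.par^[n + 1] w) =
        D.X.be y (hat D.A (T1.par V)) (T2.par^[n + 1] w)
      by_cases hV : T1.le V D.A
      · -- then `w` is not below `B`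
        have hw : ¬ T2.le w D.B := fun h => hn ⟨hV, h⟩
        have hw' : T2.par^[n + 1] w = T2.par D.B := by
          rcases hc.1 with h | h
          · exact absurd (le_trans (le_iter _ _) h) hw
          · exact h
        have hlev : T2.lev w ≤ T2.lev D.B := by
          have := congrArg T2.lev hw'
          rw [lev_iter, T2.lev_par] at this
          push_cast at this
          omega
        have hhat : hat D.A (T1.par V) = T1.par V := by
          by_cases hp : T1.le (T1.par V) D.A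
          · exact hat_of_le hp
          · rw [hat_of_not_le hp, eq_of_le_not_par hV hp]
        rw [hat_of_le hV, hhat, hw']
        apply h1.hX.link
        · exact reg_of D hV (le_refl _)
        · rw [T2.lev_par]; omega
        · intro hE
          apply hl
          have hcd : D.cond y (T1.par V) w := by
            refine ⟨?_, ?_, ?_⟩
            · by_cases hp : T1.le (T1.par V) D.A
              · exact Or.inl hp
              · rw [eq_of_le_not_par hV hp]; exact Or.inr rfl
            · rw [T1.lev_par]; omega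
            · refine le_trans ?_ (h2.ea y)
              change T2.le w (T2.par D.B)
              exact ⟨n + 1, hw'⟩
          unfold lab al
          rw [if_pos hcd, hat_of_not_le hw]
          change T1.idx V + D.X.al y (T1.par V) (T2.par D.B) = E at hE
          split_ifs with hp
          · have hVA : V = D.A := by
              apply eq_of_le_not_par hV
              rw [hp]
              exact not_par_le _
            subst hVA
            by_contra hne
            exact (cut_ne_E hne).1 (Or.inr hE)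
          · exact hE
      · have hV' : ¬ T1.le (T1.par V) D.A := fun h => hV (le_of_par_le h)
        rw [hat_of_not_le hV, hat_of_not_le hV']
    rw [key]
  · rw [if_neg hc, if_neg (fun h => hc (hcond.2 h))]

theorem lab_view (h1 : OKh E D Rv Rs) (h2 : OKh E D.swap Rv' Rs') {y : ι} {V : T1.V} {w : T2.V}
    (hn : ¬ D.inI V w) (hs : 0 ≤ T1.lev V + T2.lev w) (hl : D.lab E y V w ≠ E) (n : ℕ) :
    D.swap.lab E y (T2.par^[n] w) V = D.swap.lab E y (T2.par^[n] w) (T1.par V) := by
  have := view h1 h2 hn hs hl n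
  rw [Function.iterate_succ_apply'] at this
  unfold lab
  rw [this]

theorem end_view (h1 : OKh E D Rv Rs) (h2 : OKh E D.swap Rv' Rs') {y : ι} {V : T1.V} {w : T2.V}
    (hn : ¬ D.inI V w) (hs : 0 ≤ T1.lev V + T2.lev w) (hl : D.lab E y V w ≠ E) :
    D.swap.end1 E y w V = D.swap.end1 E y w (T1.par V) ∧
    D.swap.lab E y (D.swap.end1 E y w (T1.par V)) V =
      D.swap.lab E y (D.swap.end1 E y w (T1.par V)) (T1.par V) := by
  have e : D.swap.end1 E y w V = D.swap.end1 E y w (T1.par V) :=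
    runEnd_congr fun n => lab_view h1 h2 hn hs hl n
  refine ⟨e, ?_⟩
  obtain ⟨n, hn'⟩ := le_runEnd (fun w' => D.swap.lab E y w' (T1.par V)) w
  have e2 : D.swap.end1 E y w (T1.par V) = T2.par^[n] w := hn'.symm
  rw [e2]
  exact lab_view h1 h2 hn hs hl n

theorem exists_lab_ne (h1 : OKh E D Rv Rs) (x : ι) (V : T1.V) (w : T2.V) :
    ∃ n : ℕ, D.lab E x (T1.par^[n] V) w ≠ 0 := by
  obtain ⟨N, hN⟩ := h1.bg4 x V
  refine ⟨N + (T1.lev D.A - T1.lev V).toNat + 1, ?_⟩
  set n := N + (T1.lev D.A - T1.lev V).toNat + 1 with hn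
  have h := hN n (by omega)
  have e : T1.par (T1.par^[n] V) = T1.par^[n + 1] V := (Function.iterate_succ_apply' _ _ _).symm
  unfold lab al
  rw [e, if_neg]
  · exact h
  · rintro ⟨h3, -⟩
    have h4 : T1.lev (T1.par^[n + 1] V) = T1.lev V + ((n + 1 : ℕ) : ℤ) := lev_iter _ _
    rcases h3 with h3 | h3
    · have := lev_le h3
      omega
    · have := congrArg T1.lev h3
      rw [T1.lev_par] at this
      omega

theorem end1_of_ne {x : ι} {V : T1.V} {w : T2.V} (h : D.lab E x V w ≠ 0) :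
    D.end1 E x V w = V := runEnd_of_ne h

theorem end1_par (h1 : OKh E D Rv Rs) {x : ι} {V : T1.V} {w : T2.V} (h : D.lab E x V w = 0) :
    D.end1 E x (T1.par V) w = D.end1 E x V w :=
  runEnd_par h (exists_lab_ne h1 x V w)

theorem lab_end_ne (h1 : OKh E D Rv Rs) (x : ι) (V : T1.V) (w : T2.V) :
    D.lab E x (D.end1 E x V w) w ≠ 0 :=
  runEnd_ne (L := fun V' => D.lab E x V' w) (exists_lab_ne h1 x V w)

theorem al_corner (h1 : OKh E D Rv Rs) {y : ι} {v : T2.V} (hv : T2.le v D.B)
    (hs : 0 ≤ T1.lev D.A + T2.lev v) :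
    (v ≠ D.B → D.swap.al E y (T2.par v) (T1.par D.A) = D.X.be y (T1.par D.A) (T2.par v)) ∧
    (v = D.B → D.swap.al E y (T2.par v) (T1.par D.A) =
      cut E (T2.idx D.B) (D.X.be y (T1.par D.A) (T2.par D.B))) := by
  constructor
  · intro hne
    have hp : T2.le (T2.par v) D.B := by
      rcases (le_iff v D.B).1 hv with h | h
      · exact absurd h hne
      · exact h
    have hc : D.swap.cond y (T2.par v) (T1.par D.A) := by
      refine ⟨Or.inl hp, ?_, h1.ea y⟩
      change 0 ≤ T2.lev (T2.par v) + T1.lev D.A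
      rw [T2.lev_par]; omega
    unfold al
    rw [if_pos hc]
    rw [if_neg (show ¬ T2.par v = T2.par D.swap.A from ne_par_of_le hp)]
    change D.X.be y (hat D.A (T1.par D.A)) (T2.par v) = _
    rw [hat_of_not_le (not_par_le _)]
  · rintro rfl
    have hc : D.swap.cond y (T2.par D.B) (T1.par D.A) := by
      refine ⟨Or.inr rfl, ?_, h1.ea y⟩
      change 0 ≤ T2.lev (T2.par D.B) + T1.lev D.A
      rw [T2.lev_par]; omega
    unfold al
    rw [if_pos hc]
    rw [if_pos (show T2.par D.B = T2.par D.swap.A from rfl)]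
    change cut E (T2.idx D.B) (D.X.be y (hat D.A (T1.par D.A)) (T2.par D.B)) = _
    rw [hat_of_not_le (not_par_le _)]

/-- along the run seen from the parent of `A`, the data of `X` at `A` do not change -/
theorem corner (hE : E ≠ 0) (h1 : OKh E D Rv Rs) (h2 : OKh E D.swap Rv' Rs') {y : ι} {w : T2.V}
    (hw : T2.le w D.B) (hs : 0 ≤ T1.lev D.A + T2.lev w) (hl : D.lab E y D.A w ≠ E) :
    T2.le (D.swap.end1 E y w (T1.par D.A)) D.B ∧
    0 ≤ T1.lev D.A + T2.lev (D.swap.end1 E y w (T1.par D.A)) ∧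
    D.X.T y D.A w = D.X.T y D.A (D.swap.end1 E y w (T1.par D.A)) ∧
    ¬ SP E (D.X.lab y D.A (D.swap.end1 E y w (T1.par D.A))) := by
  unfold end1
  refine runEnd_induct (fun v => T2.le v D.B ∧ 0 ≤ T1.lev D.A + T2.lev v ∧
    D.X.T y D.A w = D.X.T y D.A v ∧ ¬ SP E (D.X.lab y D.A v)) ?_ ?_
  · refine ⟨hw, hs, rfl, ?_⟩
    unfold lab at hl
    rw [al_of_corner h2 hw (by rw [T1.lev_par]; omega)] at hl
    exact (cut_ne_E hl).1
  · rintro v - ⟨hv1, hv2, hv3, hv4⟩ hv0
    change T2.idx v + D.swap.al E y (T2.par v) (T1.par D.A) = 0 at hv0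
    have hne : v ≠ D.B := by
      intro h
      rw [(al_corner h1 hv1 hv2).2 h, h] at hv0
      exact cut_ne_zero hE _ _ hv0
    rw [(al_corner h1 hv1 hv2).1 hne] at hv0
    have hp : T2.le (T2.par v) D.B := by
      rcases (le_iff v D.B).1 hv1 with h | h
      · exact absurd h hne
      · exact h
    have hlink1 : D.X.al y (T1.par D.A) v = D.X.al y (T1.par D.A) (T2.par v) := by
      apply h2.hX.link y v (T1.par D.A) (reg_of' D (le_refl _) hv1)
      · rw [T1.lev_par]; omega
      · change T2.idx v + D.X.be y (T1.par D.A) (T2.par v) ≠ E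
        rw [hv0]; exact hE.symm
    have hlab : D.X.lab y D.A (T2.par v) = D.X.lab y D.A v := by
      unfold Fields.lab; rw [hlink1]
    have hlink2 : D.X.be y D.A (T2.par v) = D.X.be y (T1.par D.A) (T2.par v) := by
      apply h1.hX.link y D.A (T2.par v) (reg_of D (le_refl _) (par_mono hv1))
      · rw [T2.lev_par]; omega
      · rw [hlab]; exact fun h => hv4 (Or.inr h)
    refine ⟨hp, by rw [T2.lev_par]; omega, ?_, by rwa [hlab]⟩
    rw [hv3]
    apply h2.hX.h2S y v D.A (reg_of' D (le_par _) hv1)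
    · omega
    · change T2.idx v + D.X.be y D.A (T2.par v) = 0
      rw [hlink2, hv0]

open Classical in
/-- the value of `T` outside the island -/
theorem T_of_not (D : Isl T1 T2 ι 𝒞) (y : ι) (V : T1.V) (w : T2.V) (h : ¬ D.inI V w) :
    D.swap.S E y w V =
      if D.swap.lab E y (D.swap.end1 E y w V) V = E then D.swap.JS y (D.swap.end1 E y w V) V
      else (D.swap.lab E y (D.swap.end1 E y w V) V, D.K V (D.swap.end1 E y w V)) := by
  unfold S
  rw [if_neg (fun h' => h ((D.inI_swap V w).1 h'))]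
  rfl

theorem T_of_in (D : Isl T1 T2 ι 𝒞) (y : ι) (V : T1.V) (w : T2.V) (h : D.inI V w) :
    D.swap.S E y w V = D.X.T y V w := by
  unfold S
  rw [if_pos ((D.inI_swap V w).2 h)]
  rfl

open Classical in
/-- value of `T` at the corner -/
theorem corner_T (hE : E ≠ 0) (h1 : OKh E D Rv Rs)
    (h2 : OKh E D.swap Rv' Rs') {y : ι} {w : T2.V}
    (hw : T2.le w D.B) (hs : 0 ≤ T1.lev D.A + T2.lev w) (hl : D.lab E y D.A w ≠ E) :
    D.X.T y D.A w =
      if D.swap.lab E y (D.swap.end1 E y w (T1.par D.A)) (T1.par D.A) = E then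
        D.X.T y D.A (D.swap.end1 E y w (T1.par D.A))
      else (D.swap.lab E y (D.swap.end1 E y w (T1.par D.A)) (T1.par D.A),
        D.K D.A (D.swap.end1 E y w (T1.par D.A))) := by
  obtain ⟨c1, c2, c3, c4⟩ := corner hE h1 h2 hw hs hl
  set e := D.swap.end1 E y w (T1.par D.A) with he
  split_ifs with hlE
  · exact c3
  · have hne0 : D.swap.lab E y e (T1.par D.A) ≠ 0 := lab_end_ne h2 y w (T1.par D.A)
    have hnsp : ¬ SP E (D.swap.lab E y e (T1.par D.A)) := fun h => h.elim hne0 hlE
    -- the label is the label of `X`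
    have hX : D.swap.lab E y e (T1.par D.A) = D.X.swap.lab y e (T1.par D.A) := by
      change T2.idx e + D.swap.al E y (T2.par e) (T1.par D.A) =
        T2.idx e + D.X.be y (T1.par D.A) (T2.par e)
      by_cases hB : e = D.B
      · rw [(al_corner h1 c1 c2).2 hB]
        have : T2.idx D.B + cut E (T2.idx D.B) (D.X.be y (T1.par D.A) (T2.par D.B)) ≠ E := by
          have h := hlE
          change T2.idx e + D.swap.al E y (T2.par e) (T1.par D.A) ≠ E at h
          rwa [(al_corner h1 c1 c2).2 hB, hB] at h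
        rw [(cut_ne_E this).2, hB]
      · rw [(al_corner h1 c1 c2).1 hB]
    have hlink1 : D.X.al y (T1.par D.A) e = D.X.al y (T1.par D.A) (T2.par e) := by
      apply h2.hX.link y e (T1.par D.A) (reg_of' D (le_refl _) c1)
      · rw [T1.lev_par]; omega
      · exact fun h => hlE (hX.trans h)
    have hlab : D.X.lab y D.A (T2.par e) = D.X.lab y D.A e := by
      unfold Fields.lab; rw [hlink1]
    have hlink2 : D.X.be y D.A (T2.par e) = D.X.be y (T1.par D.A) (T2.par e) := by
      apply h1.hX.link y D.A (T2.par e) (reg_of D (le_refl _) (par_mono c1))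
      · rw [T2.lev_par]; omega
      · rw [hlab]; exact fun h => c4 (Or.inr h)
    have hXA : D.X.swap.lab y e D.A = D.swap.lab E y e (T1.par D.A) := by
      rw [hX]
      change T2.idx e + D.X.be y D.A (T2.par e) = T2.idx e + D.X.be y (T1.par D.A) (T2.par e)
      rw [hlink2]
    rw [c3]
    have e1 : (D.X.T y D.A e).1 = D.X.swap.lab y e D.A :=
      h2.hX.h1 y e D.A (reg_of' D (le_par _) c1) (by omega) (by rw [show D.swap.X.lab y e D.A = _ from hXA]; exact hnsp)
    have e2 : (D.X.T y D.A e).2 = D.K D.A e :=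
      h1.k2 y D.A e (le_refl _) c1 c2 (by rw [hXA]; exact hnsp)
    rw [← hXA, ← e1, ← e2]

theorem JT_step (h1 : OKh E D Rv Rs) {y : ι} {V : T1.V} {w : T2.V} (hl : D.lab E y V w ≠ E)
    (e : T2.V) (hs : 0 ≤ T1.lev V + T2.lev e) :
    Rv (D.swap.JS y e V) (D.swap.JS y e (T1.par V)) := by
  have hiff := le_EA_iff h1 hl
  unfold JS
  by_cases h : T2.le e D.swap.A ∧ 0 ≤ T2.lev e + T1.lev D.swap.B ∧ T1.le V (D.swap.EB y)
  · rw [if_pos h, if_pos ⟨h.1, h.2.1, hiff.1 h.2.2⟩]
    have : T1.lev (T1.par V) - T1.lev D.swap.B = T1.lev V - T1.lev D.swap.B + 1 := by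
      rw [T1.lev_par]; ring
    rw [this]
    exact h1.ch1 _ _
  · rw [if_neg h, if_neg (fun h' => h ⟨h'.1, h'.2.1, hiff.2 h'.2.2⟩)]
    exact h1.k1 0 V e hs

theorem JT_sib (h1 : OKh E D Rv Rs) {y : ι} {V V' : T1.V} {w : T2.V} (hp : T1.par V = T1.par V')
    (hl : D.lab E y V w ≠ E) (hl' : D.lab E y V' w ≠ E)
    (e : T2.V) (hs : 0 ≤ T1.lev V + T2.lev e) :
    Rs (D.swap.JS y e V) (D.swap.JS y e V') := by
  have hiff := le_EA_iff h1 hl
  have hiff' := le_EA_iff h1 hl'
  rw [← hp] at hiff'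
  have hlev : T1.lev V = T1.lev V' := by
    have := congrArg T1.lev hp
    rw [T1.lev_par, T1.lev_par] at this
    omega
  unfold JS
  by_cases h : T2.le e D.swap.A ∧ 0 ≤ T2.lev e + T1.lev D.swap.B ∧ T1.le V (D.swap.EB y)
  · rw [if_pos h, if_pos ⟨h.1, h.2.1, hiff'.2 (hiff.1 h.2.2)⟩, hlev]
    exact h1.rs _
  · rw [if_neg h, if_neg (fun h' => h ⟨h'.1, h'.2.1, hiff.2 (hiff'.1 h'.2.2)⟩)]
    exact h1.k1' 0 V V' e hs hp

theorem lab_of_in (h2 : OKh E D.swap Rv' Rs') {x : ι} {V : T1.V} {w : T2.V}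
    (hV : T1.le (T1.par V) D.A) (hw : T2.le w D.B) (hs : 0 ≤ T1.lev V + T2.lev w) :
    D.lab E x V w = D.X.lab x V w := by
  unfold lab Fields.lab
  rw [al_of_le h2 hV hw (by rw [T1.lev_par]; omega)]

theorem lab_of_corner (h2 : OKh E D.swap Rv' Rs') {x : ι} {w : T2.V}
    (hw : T2.le w D.B) (hs : 0 ≤ T1.lev D.A + T2.lev w) :
    D.lab E x D.A w = T1.idx D.A + cut E (T1.idx D.A) (D.X.al x (T1.par D.A) w) := by
  unfold lab
  rw [al_of_corner h2 hw (by rw [T1.lev_par]; omega)]

theorem not_in_par {V : T1.V} {w : T2.V} (h : ¬ D.inI V w) : ¬ D.inI (T1.par V) w :=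
  fun h' => h ⟨le_of_par_le h'.1, h'.2⟩

theorem h0_z (hc : ∀ a : Q, a + a = 0) (h1 : OKh E D Rv Rs) (h2 : OKh E D.swap Rv' Rs')
    (x x' : ι) (V : T1.V) (w : T2.V) (hs : 1 ≤ T1.lev V + T2.lev w) (hx : x ≠ x') :
    ¬ SP E (D.al E x V w + D.al E x' V w) := by
  -- remove the cut
  have key : ∀ x : ι, ∃ s, SP E s ∧ D.al E x V w =
      (open Classical in if D.cond x V w then D.X.al x V (hat D.B w) else D.ab x V) + s := by
    intro x
    unfold al
    by_cases h : D.cond x V w
    · rw [if_pos h, if_pos h]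
      split_ifs
      · exact cut_spec _ _
      · exact ⟨0, Or.inl rfl, by simp⟩
    · rw [if_neg h, if_neg h]
      exact ⟨0, Or.inl rfl, by simp⟩
  obtain ⟨s, hs1, hs2⟩ := key x
  obtain ⟨s', hs1', hs2'⟩ := key x'
  rw [hs2, hs2', add_add_add_comm, SP_add_iff hc (SP_add hc hs1 hs1')]
  by_cases h : D.cond x V w
  · rw [if_pos h]
    by_cases h' : D.cond x' V w
    · rw [if_pos h']
      have hV : T1.le V (T1.par D.A) := by
        rcases h.1 with h3 | h3
        · exact le_parB h3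
        · rw [h3]; exact le_refl _
      refine h1.hX.h0 _ _ _ _ ⟨hV, ?_⟩ ?_ hx
      · unfold hat
        split_ifs with hw
        · exact le_parB hw
        · exact le_refl _
      unfold hat
      split_ifs with hw
      · exact hs
      · rw [T2.lev_par]
        have := h.2.1
        omega
    · rw [if_neg h']
      have hw : ¬ T2.le w D.B := by
        intro hw
        exact h' ⟨h.1, h.2.1, le_trans hw (le_trans (le_par _) (h2.ea x'))⟩
      rw [hat_of_not_le hw, add_comm]
      exact h1.bg3 _ _ _ h.1 h.2.1 hx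
  · rw [if_neg h]
    by_cases h' : D.cond x' V w
    · rw [if_pos h']
      have hw : ¬ T2.le w D.B := by
        intro hw
        exact h ⟨h'.1, h'.2.1, le_trans hw (le_trans (le_par _) (h2.ea x))⟩
      rw [hat_of_not_le hw]
      exact h1.bg3 _ _ _ h'.1 h'.2.1 hx.symm
    · rw [if_neg h']
      exact h1.bg1 _ _ _ hx

theorem h1_z (h1 : OKh E D Rv Rs) (h2 : OKh E D.swap Rv' Rs')
    (x : ι) (V : T1.V) (w : T2.V) (hs : 0 ≤ T1.lev V + T2.lev w)
    (hl : ¬ SP E (D.lab E x V w)) : (D.S E x V w).1 = D.lab E x V w := by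
  unfold S
  by_cases hI : D.inI V w
  · rw [if_pos hI]
    by_cases hp : T1.le (T1.par V) D.A
    · rw [lab_of_in h2 hp hI.2 hs] at hl ⊢
      exact h1.hX.h1 x V w (reg_of D hI.1 (le_parB hI.2)) hs hl
    · have hV := eq_of_le_not_par hI.1 hp
      subst hV
      rw [lab_of_corner h2 hI.2 hs] at hl ⊢
      have := cut_ne_E (fun h => hl (Or.inr h))
      rw [this.2]
      exact h1.hX.h1 x _ w (reg_of D hI.1 (le_parB hI.2)) hs this.1
  · rw [if_neg hI]
    have e : D.end1 E x V w = V := end1_of_ne (fun h => hl (Or.inl h))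
    rw [e, if_neg (fun h => hl (Or.inr h))]

theorem h2S_z (hE : E ≠ 0) (h1 : OKh E D Rv Rs) (h2 : OKh E D.swap Rv' Rs')
    (x : ι) (V : T1.V) (w : T2.V) (hs : 0 ≤ T1.lev V + T2.lev w)
    (hl : D.lab E x V w = 0) : D.S E x V w = D.S E x (T1.par V) w := by
  unfold S
  by_cases hI : D.inI V w
  · rw [if_pos hI]
    by_cases hp : T1.le (T1.par V) D.A
    · rw [if_pos ⟨hp, hI.2⟩]
      rw [lab_of_in h2 hp hI.2 hs] at hl
      exact h1.hX.h2S x V w (reg_of D hI.1 (le_parB hI.2)) hs hl
    · have hV := eq_of_le_not_par hI.1 hp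
      subst hV
      rw [lab_of_corner h2 hI.2 hs] at hl
      exact absurd hl (cut_ne_zero hE _ _)
  · rw [if_neg hI, if_neg (not_in_par hI), end1_par h1 hl]

theorem lab_other (hE : E ≠ 0) (hc : ∀ a : Q, a + a = 0) (h1 : OKh E D Rv Rs)
    (h2 : OKh E D.swap Rv' Rs')
    (x y : ι) (V : T1.V) (w : T2.V) (hs : 0 ≤ T1.lev V + T2.lev w)
    (hl : D.lab E x V w = 0) : D.lab E y V w ≠ E := by
  by_cases hxy : x = y
  · subst hxy; rw [hl]; exact hE.symm
  · intro h
    have := h0_z hc h1 h2 x y (T1.par V) w (by rw [T1.lev_par]; omega) hxy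
    apply this
    right
    have e : (T1.idx V + D.al E x (T1.par V) w) + (T1.idx V + D.al E y (T1.par V) w) = E := by
      change D.lab E x V w + D.lab E y V w = E
      rw [hl, h, zero_add]
    rw [add_add_add_comm, hc, zero_add] at e
    exact e

theorem h2C_z (hE : E ≠ 0) (hc : ∀ a : Q, a + a = 0) (h1 : OKh E D Rv Rs)
    (h2 : OKh E D.swap Rv' Rs')
    (x y : ι) (V : T1.V) (w : T2.V) (hs : 0 ≤ T1.lev V + T2.lev w)
    (hl : D.lab E x V w = 0) : D.C E x y V w = D.C E x y (T1.par V) w := by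
  unfold C
  by_cases hI : D.inI V w
  · rw [if_pos hI]
    by_cases hp : T1.le (T1.par V) D.A
    · rw [if_pos ⟨hp, hI.2⟩]
      rw [lab_of_in h2 hp hI.2 hs] at hl
      exact h1.hX.h2C x y V w (reg_of D hI.1 (le_parB hI.2)) hs hl
    · have hV := eq_of_le_not_par hI.1 hp
      subst hV
      rw [lab_of_corner h2 hI.2 hs] at hl
      exact absurd hl (cut_ne_zero hE _ _)
  · obtain ⟨e1, e2⟩ := end_view h1 h2 hI hs (lab_other hE hc h1 h2 x y V w hs hl)
    rw [if_neg hI, if_neg (not_in_par hI), end1_par h1 hl, e1, e2]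

theorem h3_z (h1 : OKh E D Rv Rs) (h2 : OKh E D.swap Rv' Rs')
    (x y : ι) (V : T1.V) (w : T2.V) (hs : 0 ≤ T1.lev V + T2.lev w)
    (hl : ¬ SP E (D.lab E x V w)) : D.C E x y V w = (D.swap.S E y w V).2 := by
  by_cases hI : D.inI V w
  · rw [T_of_in D y V w hI]
    unfold C
    rw [if_pos hI]
    by_cases hp : T1.le (T1.par V) D.A
    · rw [lab_of_in h2 hp hI.2 hs] at hl
      exact h1.hX.h3 x y V w (reg_of D hI.1 (le_parB hI.2)) hs hl
    · have hV := eq_of_le_not_par hI.1 hp
      subst hV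
      rw [lab_of_corner h2 hI.2 hs] at hl
      have := cut_ne_E (fun h => hl (Or.inr h))
      exact h1.hX.h3 x y _ w (reg_of D hI.1 (le_parB hI.2)) hs this.1
  · rw [T_of_not D y V w hI]
    unfold C
    have e : D.end1 E x V w = V := end1_of_ne (fun h => hl (Or.inl h))
    rw [if_neg hI, e, if_neg (fun h => hl (Or.inr h))]
    split_ifs <;> rfl

open Classical in
/-- value of `T` outside the island, in terms of the view of the parent -/
theorem T_of_not' (h1 : OKh E D Rv Rs) (h2 : OKh E D.swap Rv' Rs') {y : ι} {V : T1.V} {w : T2.V}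
    (hI : ¬ D.inI V w) (hs : 0 ≤ T1.lev V + T2.lev w) (hl : D.lab E y V w ≠ E) :
    D.swap.S E y w V =
      if D.swap.lab E y (D.swap.end1 E y w (T1.par V)) (T1.par V) = E then
        D.swap.JS y (D.swap.end1 E y w (T1.par V)) V
      else (D.swap.lab E y (D.swap.end1 E y w (T1.par V)) (T1.par V),
        D.K V (D.swap.end1 E y w (T1.par V))) := by
  rw [T_of_not D y V w hI]
  obtain ⟨e1, e2⟩ := end_view h1 h2 hI hs hl
  rw [e1, e2]

theorem lev_end (D : Isl T1 T2 ι 𝒞) (y : ι) (V : T1.V) (w : T2.V) :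
    T2.lev w ≤ T2.lev (D.swap.end1 E y w V) := lev_le (le_runEnd _ _)

theorem h4_z (hE : E ≠ 0) (h1 : OKh E D Rv Rs)
    (h2 : OKh E D.swap Rv' Rs')
    (y : ι) (V : T1.V) (w : T2.V) (hs : 0 ≤ T1.lev V + T2.lev w)
    (hl : D.lab E y V w ≠ E) : Rv (D.swap.S E y w V) (D.swap.S E y w (T1.par V)) := by
  by_cases hI : D.inI V w
  · rw [T_of_in D y V w hI]
    by_cases hp : T1.le (T1.par V) D.A
    · rw [T_of_in D y (T1.par V) w ⟨hp, hI.2⟩]
      rw [lab_of_in h2 hp hI.2 hs] at hl
      exact h1.hX.h4 y V w (reg_of D hI.1 (le_parB hI.2)) hs hl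
    · have hV := eq_of_le_not_par hI.1 hp
      subst hV
      rw [T_of_not D y (T1.par D.A) w (fun h => hp h.1), corner_T hE h1 h2 hI.2 hs hl]
      obtain ⟨c1, c2, c3, c4⟩ := corner hE h1 h2 hI.2 hs hl
      set e := D.swap.end1 E y w (T1.par D.A) with he
      split_ifs with hlE
      · unfold JS
        rw [if_pos ⟨c1, by change 0 ≤ T2.lev e + T1.lev D.A; omega, h1.ea y⟩]
        have : T1.lev (T1.par D.A) - T1.lev D.swap.B = 0 + 1 := by
          change T1.lev (T1.par D.A) - T1.lev D.A = 0 + 1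
          rw [T1.lev_par]; ring
        rw [this]
        have h3 := h1.ch1 (D.X.T y D.A e) 0
        rw [h1.ch0] at h3
        exact h3
      · exact h1.k1 _ _ _ c2
  · rw [T_of_not' h1 h2 hI hs hl, T_of_not D y (T1.par V) w (not_in_par hI)]
    have := lev_end (E := E) D y (T1.par V) w
    split_ifs
    · exact JT_step h1 hl _ (by omega)
    · exact h1.k1 _ _ _ (by omega)

theorem h5_corner (hE : E ≠ 0) (h1 : OKh E D Rv Rs) (h2 : OKh E D.swap Rv' Rs')
    (y : ι) (V : T1.V) (w : T2.V) (hs : 0 ≤ T1.lev D.A + T2.lev w)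
    (hp : T1.par V = T1.par D.A) (hw : T2.le w D.B) (hI : ¬ D.inI V w)
    (hl : D.lab E y V w ≠ E) (hl' : D.lab E y D.A w ≠ E) :
    (open Classical in
      D.swap.S E y w V = if D.swap.lab E y (D.swap.end1 E y w (T1.par D.A)) (T1.par D.A) = E then
        D.X.T y D.A (D.swap.end1 E y w (T1.par D.A))
      else (D.swap.lab E y (D.swap.end1 E y w (T1.par D.A)) (T1.par D.A),
        D.K V (D.swap.end1 E y w (T1.par D.A)))) := by
  have hlev : T1.lev V = T1.lev D.A := by
    have := congrArg T1.lev hp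
    rw [T1.lev_par, T1.lev_par] at this
    omega
  rw [T_of_not' h1 h2 hI (by omega) hl, hp]
  obtain ⟨c1, c2, c3, c4⟩ := corner hE h1 h2 hw hs hl'
  set e := D.swap.end1 E y w (T1.par D.A) with he
  split_ifs with hlE
  · unfold JS
    rw [if_pos ⟨c1, by change 0 ≤ T2.lev e + T1.lev D.A; omega,
      le_trans (by rw [← hp]; exact le_par V) (h1.ea y)⟩]
    have : T1.lev V - T1.lev D.swap.B = 0 := by
      change T1.lev V - T1.lev D.A = 0
      omega
    rw [this]
    exact h1.ch0 _
  · rfl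

theorem h5_z (hE : E ≠ 0) (h1 : OKh E D Rv Rs)
    (h2 : OKh E D.swap Rv' Rs') (hsym : ∀ c c', Rs c c' → Rs c' c)
    (y : ι) (V V' : T1.V) (w : T2.V) (hs : 0 ≤ T1.lev V + T2.lev w) (hp : T1.par V = T1.par V')
    (hl : D.lab E y V w ≠ E) (hl' : D.lab E y V' w ≠ E) :
    Rs (D.swap.S E y w V) (D.swap.S E y w V') := by
  have hlev : T1.lev V = T1.lev V' := by
    have := congrArg T1.lev hp
    rw [T1.lev_par, T1.lev_par] at this
    omega
  -- the mixed case
  have mixed : ∀ V V' : T1.V, 0 ≤ T1.lev V + T2.lev w → T1.par V = T1.par V' →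
      D.lab E y V w ≠ E → D.lab E y V' w ≠ E → T1.lev V = T1.lev V' → D.inI V w → ¬ D.inI V' w →
      Rs (D.swap.S E y w V) (D.swap.S E y w V') := by
    intro V V' hs hp hl hl' hlev hI hI'
    have hpn : ¬ T1.le (T1.par V) D.A := by
      intro h
      apply hI'
      rw [hp] at h
      exact ⟨le_of_par_le h, hI.2⟩
    have hV := eq_of_le_not_par hI.1 hpn
    subst hV
    rw [h5_corner hE h1 h2 y V' w hs hp.symm hI.2 hI' hl' hl, T_of_in D y _ w hI,
      corner_T hE h1 h2 hI.2 hs hl]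
    have := lev_end (E := E) D y (T1.par D.A) w
    split_ifs
    · exact h1.rs _
    · exact h1.k1' _ _ _ _ (by omega) hp
  by_cases hI : D.inI V w
  · by_cases hI' : D.inI V' w
    · rw [T_of_in D y V w hI, T_of_in D y V' w hI']
      by_cases hpn : T1.le (T1.par V) D.A
      · rw [lab_of_in h2 hpn hI.2 hs] at hl
        rw [lab_of_in h2 (by rw [← hp]; exact hpn) hI.2 (by omega)] at hl'
        exact h1.hX.h5 y V V' w (reg_of D hI.1 (le_parB hI.2)) hs hp hl hl'
      · have hV := eq_of_le_not_par hI.1 hpn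
        have hV' := eq_of_le_not_par hI'.1 (by rw [← hp]; exact hpn)
        rw [hV, hV']
        exact h1.rs _
    · exact mixed V V' hs hp hl hl' hlev hI hI'
  · by_cases hI' : D.inI V' w
    · exact hsym _ _ (mixed V' V (by omega) hp.symm hl' hl hlev.symm hI' hI)
    · rw [T_of_not' h1 h2 hI hs hl, T_of_not' h1 h2 hI' (by omega) hl', ← hp]
      have := lev_end (E := E) D y (T1.par V) w
      split_ifs
      · exact JT_sib h1 hp hl hl' _ (by omega)
      · exact h1.k1' _ _ _ _ (by omega) hp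

theorem half_z (hE : E ≠ 0) (hc : ∀ a : Q, a + a = 0) (hsym : ∀ c c', Rs c c' → Rs c' c)
    (h1 : OKh E D Rv Rs) (h2 : OKh E D.swap Rv' Rs') : Half E (D.z E) Rv Rs (fun _ _ => True) where
  h0 x x' V w _ hs hx := h0_z hc h1 h2 x x' V w hs hx
  h1 x V w _ hs hl := h1_z h1 h2 x V w hs hl
  h2S x V w _ hs hl := h2S_z hE h1 h2 x V w hs hl
  h2C x y V w _ hs hl := h2C_z hE hc h1 h2 x y V w hs hl
  h3 x y V w _ hs hl := h3_z h1 h2 x y V w hs hl
  h4 y V w _ hs hl := h4_z hE h1 h2 y V w hs hl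
  h5 y V V' w _ hs hp hl hl' := h5_z hE h1 h2 hsym y V V' w hs hp hl hl'

theorem half_z' (hE : E ≠ 0) (hc : ∀ a : Q, a + a = 0) (hsym : ∀ c c', Rs' c c' → Rs' c' c)
    (h1 : OKh E D Rv Rs) (h2 : OKh E D.swap Rv' Rs') : Half E (D.z E).swap Rv' Rs' (fun _ _ => True) := by
  rw [← z_swap]
  exact half_z (D := D.swap) hE hc hsym h2 h1

end Isl

end Pool.Agent.Lamp76
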