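import Pool.Agent.H5.LL.Spec
import Pool.Agent.Lamp76.IslandProof

/-!
MODULE I (island theorem) in the language of `Pool.Agent.H5.LL.Spec`.
-/

set_option autoImplicit false

namespace Pool.Agent.Lamp76.Port

open Pool.Agent.H5

variable {T : Type} [LL.HTree T] {K : Type}

/-- the tree as a structure -/
@[reducible]
def tr (T : Type) [LL.HTree T] : HTree LL.Q where
  V := T
  lev := LL.HTree.lev
  par := LL.HTree.up
  idx := LL.HTree.idx
  lev_par := LL.HTree.lev_up
  ext' u v h1 h2 := by rw [← LL.HTree.ch_idx u, ← LL.HTree.ch_idx v, h1, h2]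

/-- the fields as a structure -/
def fl (F : T → T → LL.Dat K) (α β : T → T → LL.Sg → LL.Q) : Fields (tr T) (tr T) LL.Sg K where
  al x V w := α V w x
  be y V w := β V w y
  S x V w := (F V w).S x
  T y V w := (F V w).T y
  C x y V w := (F V w).C x y

/-- relation of labelled contents -/
def rv (v : K → K → Prop) (c p : LL.Q × K) : Prop := c.1 = p.1 ∧ v c.2 p.2

def rs (s : K → K → Prop) (c p : LL.Q × K) : Prop := s c.2 p.2

def mkD (A B : T) (F : T → T → LL.Dat K) (α β : T → T → LL.Sg → LL.Q) (K0 : T → T → K)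
    (a b : LL.Sg → ℕ) (ab bb : T → LL.Sg → LL.Q) (G1 G2 : K → ℤ → K) :
    Isl (tr T) (tr T) LL.Sg K where
  A := A
  B := B
  X := fl F α β
  ab x V := ab V x
  bb x w := bb w x
  EA x := LL.HTree.up^[a x] A
  EB x := LL.HTree.up^[b x] B
  K V w := K0 V w
  chT c n := (c.1, G2 c.2 n)
  chS c n := (c.1, G1 c.2 n)

theorem mkD_swap (A B : T) (F : T → T → LL.Dat K) (α β : T → T → LL.Sg → LL.Q) (K0 : T → T → K)
    (a b : LL.Sg → ℕ) (ab bb : T → LL.Sg → LL.Q) (G1 G2 : K → ℤ → K) :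
    (mkD A B F α β K0 a b ab bb G1 G2).swap =
      mkD B A (fun V w => (F w V).dual) (fun V w => β w V) (fun V w => α w V)
        (fun V w => K0 w V) b a bb ab G2 G1 := rfl

/-- links on a region -/
theorem links_on {R : LL.Rel K} {A' B' : T} {F : T → T → LL.Dat K} {α β : T → T → LL.Sg → LL.Q}
    (h : LL.IsFldOn (LL.inBox A' B') R F α β) (V w : T) (hP : LL.inBox A' B' V w)
    (hs : 2 ≤ LL.HTree.lev V + LL.HTree.lev w) :
    (∀ j x, j + β V w x ≠ LL.e0 → α V (LL.HTree.ch w j) x = α V w x) ∧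
    (∀ i x, i + α V w x ≠ LL.e0 → β (LL.HTree.ch V i) w x = β V w x) := by
  have hch : ∀ (v A : T) (i : LL.Q), LL.below v A → LL.below (LL.HTree.ch v i) A := by
    rintro v A i ⟨n, hn⟩
    exact ⟨n + 1, by rw [Function.iterate_succ_apply, LL.HTree.up_ch, hn]⟩
  have hT : ∀ j, LL.LOC R (α V (LL.HTree.ch w j)) (β V (LL.HTree.ch w j)) (F V (LL.HTree.ch w j))
      (fun i => F (LL.HTree.ch V i) (LL.HTree.ch w j))
      (fun j' => F V (LL.HTree.ch (LL.HTree.ch w j) j')) := fun j =>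
    h V (LL.HTree.ch w j) ⟨hP.1, hch _ _ _ hP.2⟩ (by rw [LL.lev_ch]; omega)
  have hB : ∀ i, LL.LOC R (α (LL.HTree.ch V i) w) (β (LL.HTree.ch V i) w) (F (LL.HTree.ch V i) w)
      (fun i' => F (LL.HTree.ch (LL.HTree.ch V i) i') w)
      (fun j => F (LL.HTree.ch V i) (LL.HTree.ch w j)) := fun i =>
    h (LL.HTree.ch V i) w ⟨hch _ _ _ hP.1, hP.2⟩ (by rw [LL.lev_ch]; omega)
  obtain ⟨α', β', P, h1, h2, h3, h4⟩ := LL.coherence
    (fun i j => F (LL.HTree.ch V i) (LL.HTree.ch w j))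
    (fun i => F (LL.HTree.ch V i) w) (fun j => F V (LL.HTree.ch w j))
    (fun j => α V (LL.HTree.ch w j))
    (fun i => β (LL.HTree.ch V i) w) (fun j => (hT j).1) (fun i => (hB i).2)
  have h5 : LL.LOC R α' β' P (fun i => F (LL.HTree.ch V i) w) (fun j => F V (LL.HTree.ch w j)) :=
    ⟨h1, h2⟩
  obtain ⟨-, e1, e2⟩ := (h V w hP (by omega)).unique h5
  rw [e1, e2]
  exact ⟨h3, h4⟩

/-- the rules on a region, pointwise -/
theorem halfL_of {R : LL.Rel K} {A' B' : T} {F : T → T → LL.Dat K} {α β : T → T → LL.Sg → LL.Q}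
    (h : LL.IsFldOn (LL.inBox A' B') R F α β) :
    HalfL LL.e0 (fl F α β) (rv R.v2) (rs R.s2) (fun V w => LL.inBox A' B' V w) := by
  have hh : ∀ (V w : T), LL.inBox A' B' (LL.HTree.up V) w →
      0 ≤ LL.HTree.lev V + LL.HTree.lev w →
      LL.Half R.v2 R.s2 (α (LL.HTree.up V) w) (F (LL.HTree.up V) w)
        (fun i => F (LL.HTree.ch (LL.HTree.up V) i) w) := fun V w hP hs =>
    (h (LL.HTree.up V) w hP (by rw [LL.HTree.lev_up]; omega)).1
  refine ⟨⟨?_, ?_, ?_, ?_, ?_, ?_, ?_⟩, ?_⟩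
  · intro x x' V w hP hs hx hsp
    apply hx
    have := (h V w hP hs).1.h0 (α V w x) x x' (Or.inl (LL.Q.add_self _)) hsp
    exact this
  · intro x V w hP hs hl
    have := (hh V w hP hs).h1 (LL.HTree.idx V) x hl
    simp only [LL.HTree.ch_idx] at this
    exact this
  · intro x V w hP hs hl
    have := (hh V w hP hs).h2S (LL.HTree.idx V) x hl
    simp only [LL.HTree.ch_idx] at this
    exact this
  · intro x y V w hP hs hl
    have := (hh V w hP hs).h2C (LL.HTree.idx V) x y hl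
    simp only [LL.HTree.ch_idx] at this
    exact this
  · intro x y V w hP hs hl
    have := (hh V w hP hs).h3 (LL.HTree.idx V) x y hl
    simp only [LL.HTree.ch_idx] at this
    exact this
  · intro y V w hP hs hl
    have := (hh V w hP hs).h4 (LL.HTree.idx V) y hl
    simp only [LL.HTree.ch_idx] at this
    exact this
  · intro y V V' w hP hs hV hl hl'
    have hV' : LL.HTree.up V = LL.HTree.up V' := hV
    have := (hh V w hP hs).h5 (LL.HTree.idx V) (LL.HTree.idx V') y hl (by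
      change LL.HTree.idx V' + α (LL.HTree.up V') w y ≠ LL.e0 at hl'
      rw [hV']
      exact hl')
    simp only [LL.HTree.ch_idx] at this
    rw [hV', LL.HTree.ch_idx] at this
    exact this
  · intro x V w hP hs hl
    have := (links_on h (LL.HTree.up V) w hP (by
      have : 1 ≤ LL.HTree.lev V + LL.HTree.lev w := hs
      rw [LL.HTree.lev_up]; omega)).2 (LL.HTree.idx V) x hl
    rw [LL.HTree.ch_idx] at this
    exact this

theorem okh {R : LL.Rel K} {pos : K → Prop} (hg : LL.GoodRel R.v2 R.s2)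
    {A B : T} {F : T → T → LL.Dat K}
    {α β : T → T → LL.Sg → LL.Q} {K0 : T → T → K} {a b : LL.Sg → ℕ} {ab bb : T → LL.Sg → LL.Q}
    {G1 G2 : K → ℤ → K} (hG : ∀ c, G2 c 0 = c ∧ ∀ n, R.v2 (G2 c n) (G2 c (n + 1)))
    (hF : LL.IsFldOn (LL.inBox (LL.HTree.up A) (LL.HTree.up B)) R F α β)
    (hI : ∀ V w, LL.inBox A B V w → 0 ≤ LL.HTree.lev V + LL.HTree.lev w → ∀ x y,
      ¬ LL.SP (LL.lab1 α V w x) → ¬ LL.SP (LL.lab2 β V w y) →
      (F V w).C x y = K0 V w ∧ ((F V w).T y).2 = K0 V w ∧ ((F V w).S x).2 = K0 V w)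
    (hK : LL.KGood R pos K0) (hab : LL.BGood ab)
    (hA : LL.BCompat A a (-LL.HTree.lev B) (fun V x => α V (LL.HTree.up B) x) ab) :
    Isl.OKh LL.e0 (mkD A B F α β K0 a b ab bb G1 G2) (rv R.v2) (rs R.s2) := by
  have hX := halfL_of hF
  refine ⟨hX, ?_, ?_, ?_, ?_, ?_, ?_, ?_, ?_, ?_, ?_, ?_⟩
  · intro x x' V hx h
    exact hab.dist V x x' hx h
  · intro x
    obtain ⟨n, hn⟩ : ∃ n, a x = n + 1 := ⟨a x - 1, by have := hA.pos x; omega⟩
    refine ⟨n, ?_⟩
    change LL.HTree.up^[n] (LL.HTree.up A) = LL.HTree.up^[a x] A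
    rw [hn, Function.iterate_succ_apply]
  · intro x
    have := hA.exc x
    rw [Function.iterate_succ_apply'] at this
    exact this
  · intro x x' V hV hs hx
    refine hA.dist V hV ?_ x x' hx
    have : 0 ≤ LL.HTree.lev V + LL.HTree.lev B := hs
    omega
  · intro x V
    obtain ⟨N, hN⟩ := hab.fin V x
    exact ⟨N, fun n hn => hN n hn⟩
  · intro q V w hs
    exact ⟨rfl, hK.v2 V w hs⟩
  · intro q V V' w hs hV
    exact hK.s2 V V' w hs hV
  · intro y V w hV hw hs hl
    obtain ⟨x0, hx0⟩ : ∃ x0 : LL.Sg, ∀ x, x ≠ x0 → ¬ LL.SP (LL.lab1 α V w x) := by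
      apply LL.exists_of_unique
      intro x x' h1 h2
      have := (hF (LL.HTree.up V) w ⟨Isl.par_mono hV, Isl.le_parB hw⟩ (by
        have : 0 ≤ LL.HTree.lev V + LL.HTree.lev w := hs
        rw [LL.HTree.lev_up]; omega)).1.h0 (LL.HTree.idx V) x x' h1 h2
      exact this
    obtain ⟨x, hx, -, -, -⟩ := LL.Sg.avoid x0 x0 x0 x0
    exact (hI V w ⟨hV, hw⟩ hs x y (hx0 x hx) hl).2.1
  · intro c
    exact Prod.ext rfl (hG c.2).1
  · intro c n
    exact ⟨rfl, (hG c.2).2 n⟩
  · intro c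
    exact hg.refl c.2

/-- the data of fields -/
def dat (Z : Fields (tr T) (tr T) LL.Sg K) (V w : T) : LL.Dat K where
  S x := Z.S x V w
  T y := Z.T y V w
  C x y := Z.C x y V w

theorem dat_swap (Z : Fields (tr T) (tr T) LL.Sg K) (V w : T) :
    dat Z.swap w V = (dat Z V w).dual := rfl

theorem half_conv {Z : Fields (tr T) (tr T) LL.Sg K} {v s : K → K → Prop}
    (h : Half LL.e0 Z (rv v) (rs s) (fun _ _ => True)) (V w : T)
    (hs : 1 ≤ LL.HTree.lev V + LL.HTree.lev w) :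
    LL.Half v s (fun x => Z.al x V w) (dat Z V w) (fun i => dat Z (LL.HTree.ch V i) w) := by
  have hlab : ∀ i x, Z.lab x (LL.HTree.ch V i) w = i + Z.al x V w := by
    intro i x
    change LL.HTree.idx (LL.HTree.ch V i) + Z.al x (LL.HTree.up (LL.HTree.ch V i)) w = _
    rw [LL.HTree.idx_ch, LL.HTree.up_ch]
  have hup : ∀ i, (tr T).par (LL.HTree.ch V i) = V := fun i => LL.HTree.up_ch V i
  have hs' : ∀ i, 0 ≤ (tr T).lev (LL.HTree.ch V i) + (tr T).lev w := by
    intro i
    change 0 ≤ LL.HTree.lev (LL.HTree.ch V i) + LL.HTree.lev w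
    rw [LL.lev_ch]
    omega
  refine ⟨?_, ?_, ?_, ?_, ?_, ?_, ?_⟩
  · intro i x x' h1 h2
    by_contra hne
    apply h.h0 x x' V w trivial hs hne
    have := SP_add (E := LL.e0) LL.Q.add_self h1 h2
    rw [add_add_add_comm, LL.Q.add_self, zero_add] at this
    exact this
  · intro i x h1
    have := h.h1 x (LL.HTree.ch V i) w trivial (hs' i) (by rw [hlab]; exact h1)
    rw [hlab] at this
    exact this
  · intro i x h1
    have := h.h2S x (LL.HTree.ch V i) w trivial (hs' i) (by rw [hlab]; exact h1)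
    rw [hup] at this
    exact this
  · intro i x y h1
    have := h.h2C x y (LL.HTree.ch V i) w trivial (hs' i) (by rw [hlab]; exact h1)
    rw [hup] at this
    exact this
  · intro i x y h1
    exact h.h3 x y (LL.HTree.ch V i) w trivial (hs' i) (by rw [hlab]; exact h1)
  · intro i y h1
    have := h.h4 y (LL.HTree.ch V i) w trivial (hs' i) (by rw [hlab]; exact h1)
    rw [hup] at this
    exact this
  · intro i i' y h1 h2
    exact h.h5 y (LL.HTree.ch V i) (LL.HTree.ch V i') w trivial (hs' i) (by rw [hup, hup])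
      (by rw [hlab]; exact h1) (by rw [hlab]; exact h2)

theorem isFld_of {R : LL.Rel K} {Z : Fields (tr T) (tr T) LL.Sg K}
    (h1 : Half LL.e0 Z (rv R.v2) (rs R.s2) (fun _ _ => True))
    (h2 : Half LL.e0 Z.swap (rv R.v1) (rs R.s1) (fun _ _ => True)) :
    LL.IsFld R (fun V w => dat Z V w) (fun V w x => Z.al x V w) (fun V w y => Z.be y V w) := by
  intro V w hs
  refine ⟨half_conv h1 V w hs, ?_⟩
  exact half_conv h2 w V (by rw [add_comm]; exact hs)

theorem find_iter {α : Type} (f : α → α) (u : α) (p q : ℕ → Prop) (ip : DecidablePred p)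
    (iq : DecidablePred q) (h : ∃ n, p n) (h' : ∃ n, q n) (e : ∀ n, p n ↔ q n) :
    f^[@Nat.find p ip h] u = f^[@Nat.find q iq h'] u := by
  have : p = q := funext fun n => propext (e n)
  subst this
  congr 2

section outside

variable {D : Isl (tr T) (tr T) LL.Sg K} {Rv Rs Rv' Rs' : LL.Q × K → LL.Q × K → Prop} {N : ℕ}

theorem al_out (hN : ∀ x, (tr T).le (D.EB x) ((tr T).par^[N] D.B)) (hN1 : 1 ≤ N)
    {V w : T} (ho : ¬ LL.inBox ((LL.HTree.up)^[N] D.A) (LL.HTree.up^[N] D.B) V w) (x : LL.Sg) :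
    D.al LL.e0 x V w = D.ab x V := by
  unfold Isl.al
  rw [if_neg]
  rintro ⟨h1, -, h3⟩
  apply ho
  refine ⟨?_, HTree.le_trans h3 (hN x)⟩
  have hA : (tr T).le ((tr T).par D.A) ((tr T).par^[N] D.A) := HTree.lev_iter_le (n := 1) hN1 D.A
  rcases h1 with h1 | h1
  · exact HTree.le_trans h1 (HTree.le_iter _ _)
  · rw [h1]; exact hA

theorem out_anc {A' B' V w : T} (ho : ¬ LL.inBox A' B' V w) (n : ℕ) :
    ¬ LL.inBox A' B' (LL.HTree.up^[n] V) w := by
  rintro ⟨⟨m, hm⟩, h2⟩
  exact ho ⟨⟨m + n, by rw [Function.iterate_add_apply, hm]⟩, h2⟩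

theorem lab_out (hN : ∀ x, (tr T).le (D.EB x) ((tr T).par^[N] D.B)) (hN1 : 1 ≤ N)
    {V w : T} (ho : ¬ LL.inBox ((LL.HTree.up)^[N] D.A) (LL.HTree.up^[N] D.B) V w) (x : LL.Sg)
    (n : ℕ) : D.lab LL.e0 x (LL.HTree.up^[n] V) w = LL.blab (fun V x => D.ab x V) V x n := by
  have := al_out hN hN1 (out_anc ho (n + 1)) x
  unfold LL.blab
  rw [Function.iterate_succ_apply'] at this ⊢
  exact congrArg (LL.HTree.idx (LL.HTree.up^[n] V) + ·) this

theorem end_out (hN : ∀ x, (tr T).le (D.EB x) ((tr T).par^[N] D.B)) (hN1 : 1 ≤ N)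
    {V w : T} (ho : ¬ LL.inBox ((LL.HTree.up)^[N] D.A) (LL.HTree.up^[N] D.B) V w) (x : LL.Sg) :
    D.end1 LL.e0 x V w = LL.bend (fun V x => D.ab x V) V x ∧
    D.lab LL.e0 x (D.end1 LL.e0 x V w) w = LL.bval (fun V x => D.ab x V) V x := by
  have h1 : D.end1 LL.e0 x V w = LL.bend (fun V x => D.ab x V) V x := by
    unfold Isl.end1 HTree.runEnd LL.bend LL.run
    have e : (fun n : ℕ => D.lab LL.e0 x ((tr T).par^[n] V) w) =
        LL.blab (fun V x => D.ab x V) V x := funext fun n => lab_out hN hN1 ho x n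
    by_cases h : ∃ n : ℕ, LL.blab (fun V x => D.ab x V) V x n ≠ 0
    · have h' : ∃ n : ℕ, D.lab LL.e0 x ((tr T).par^[n] V) w ≠ 0 := by
        obtain ⟨n, hn⟩ := h
        exact ⟨n, by rw [congrFun e n]; exact hn⟩
      rw [dif_pos h, dif_pos h']
      exact find_iter _ _ _ _ _ _ h' h (fun n => by rw [congrFun e n])
    · have h' : ¬ ∃ n : ℕ, D.lab LL.e0 x ((tr T).par^[n] V) w ≠ 0 := by
        rintro ⟨n, hn⟩
        exact h ⟨n, by rw [← congrFun e n]; exact hn⟩
      rw [dif_neg h, dif_neg h']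
      rfl
  refine ⟨h1, ?_⟩
  rw [h1]
  exact lab_out hN hN1 ho x _

theorem JS_out (hN : ∀ x, (tr T).le (D.EB x) ((tr T).par^[N] D.B))
    {V w : T} (ho : ¬ LL.inBox ((LL.HTree.up)^[N] D.A) (LL.HTree.up^[N] D.B) V w) (x : LL.Sg) :
    D.JS x V w = (0, D.K V w) := by
  unfold Isl.JS
  rw [if_neg]
  rintro ⟨h1, -, h3⟩
  exact ho ⟨HTree.le_trans h1 (HTree.le_iter _ _), HTree.le_trans h3 (hN x)⟩

theorem S_out (hN : ∀ x, (tr T).le (D.EB x) ((tr T).par^[N] D.B)) (hN1 : 1 ≤ N)
    (hok : Isl.OKh LL.e0 D Rv Rs)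
    {V w : T} (ho : ¬ LL.inBox ((LL.HTree.up)^[N] D.A) (LL.HTree.up^[N] D.B) V w) (x : LL.Sg) :
    D.S LL.e0 x V w = (if LL.SP (LL.bval (fun V x => D.ab x V) V x) then 0
      else LL.bval (fun V x => D.ab x V) V x, D.K (LL.bend (fun V x => D.ab x V) V x) w) := by
  obtain ⟨e1, e2⟩ := end_out hN hN1 ho x
  have hne := Isl.lab_end_ne hok x V w
  rw [e2] at hne
  unfold Isl.S
  rw [if_neg, e2, e1]
  · have hJ : D.JS x (LL.bend (fun V x => D.ab x V) V x) w =
        (0, D.K (LL.bend (fun V x => D.ab x V) V x) w) := by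
      apply JS_out hN
      exact out_anc ho _
    rw [hJ]
    by_cases h : LL.bval (fun V x => D.ab x V) V x = LL.e0
    · rw [if_pos h, if_pos (show LL.SP _ from Or.inr h)]
    · rw [if_neg h, if_neg (show ¬ LL.SP _ from fun h' => h'.elim hne h)]
  · rintro ⟨h1, h2⟩
    exact ho ⟨HTree.le_trans h1 (HTree.le_iter _ _), HTree.le_trans h2 (HTree.le_iter _ _)⟩

end outside

theorem dual_on {R : LL.Rel K} {A' B' : T} {F : T → T → LL.Dat K} {α β : T → T → LL.Sg → LL.Q}
    (h : LL.IsFldOn (LL.inBox A' B') R F α β) :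
    LL.IsFldOn (LL.inBox B' A') R.dual (fun V w => (F w V).dual) (fun V w => β w V)
      (fun V w => α w V) :=
  fun V w hP hs => (h w V ⟨hP.2, hP.1⟩ (by rw [add_comm]; exact hs)).dual

theorem kgood_dual {R : LL.Rel K} {pos : K → Prop} {K0 : T → T → K} (h : LL.KGood R pos K0) :
    LL.KGood R.dual pos (fun V w => K0 w V) :=
  ⟨fun V w hs => h.v1 w V (by rw [add_comm]; exact hs),
    fun V w hs => h.v2 w V (by rw [add_comm]; exact hs),
    fun V V' w hs hV => h.s1 w V V' (by rw [add_comm]; exact hs) hV,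
    fun V w w' hs hw => h.s2 w w' V (by rw [add_comm]; exact hs) hw,
    fun V w hs => h.pos w V (by rw [add_comm]; exact hs)⟩

/-- MODULE I -/
theorem island (T : Type) [LL.HTree T] : LL.IslandThm T := by
  intro K R pos hg2 hg1 A B F α β K0 a b ab bb hF hI hK hab hbb hA hB
  choose G2 hG2 using hg2.chain
  choose G1 hG1 using hg1.chain
  set D := mkD A B F α β K0 a b ab bb G1 G2 with hD
  have ok1 : Isl.OKh LL.e0 D (rv R.v2) (rs R.s2) := okh hg2 hG2 hF hI hK hab hA
  have ok2 : Isl.OKh LL.e0 D.swap (rv R.v1) (rs R.s1) := by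
    rw [hD, mkD_swap]
    refine okh (R := R.dual) hg1 hG1 (dual_on hF) ?_ (kgood_dual hK) hbb hB
    intro V w hP hs x y h1 h2
    obtain ⟨e1, e2, e3⟩ := hI w V ⟨hP.2, hP.1⟩ (by rw [add_comm]; exact hs) y x h2 h1
    exact ⟨e1, e3, e2⟩
  have half1 := Isl.half_z LL.e0_ne LL.Q.add_self (fun c c' h => hg2.symm _ _ h) ok1 ok2
  have half2 := Isl.half_z' LL.e0_ne LL.Q.add_self (fun c c' h => hg1.symm _ _ h) ok1 ok2
  refine ⟨fun V w => dat (D.z LL.e0) V w, fun V w x => (D.z LL.e0).al x V w,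
    fun V w y => (D.z LL.e0).be y V w, isFld_of half1 half2, ?_, ?_, ?_⟩
  · -- the island
    intro V w hP hs
    have hin : D.inI V w := hP
    have hin' : D.swap.inI w V := ⟨hP.2, hP.1⟩
    have e1 : ∀ x, D.S LL.e0 x V w = (F V w).S x := by
      intro x; unfold Isl.S; rw [if_pos hin]; rfl
    have e2 : ∀ y, D.swap.S LL.e0 y w V = (F V w).T y := by
      intro y; unfold Isl.S; rw [if_pos hin']; rfl
    have e3 : ∀ x y, D.C LL.e0 x y V w = (F V w).C x y := by
      intro x y; unfold Isl.C; rw [if_pos hin]; rfl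
    change LL.Dat.mk _ _ _ = F V w
    have : F V w = LL.Dat.mk (F V w).S (F V w).T (F V w).C := rfl
    rw [this]
    congr 1
    · exact funext e1
    · exact funext e2
    · exact funext fun x => funext fun y => e3 x y
  · -- positivity
    intro V w hs j y hl
    change pos (D.swap.S LL.e0 y (LL.HTree.ch w j) V).2
    have hlab : D.swap.lab LL.e0 y (LL.HTree.ch w j) V = j + D.swap.al LL.e0 y w V := by
      change LL.HTree.idx (LL.HTree.ch w j) +
        D.swap.al LL.e0 y (LL.HTree.up (LL.HTree.ch w j)) V = _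
      rw [LL.HTree.idx_ch, LL.HTree.up_ch]
    have hl' : ¬ LL.SP (D.swap.lab LL.e0 y (LL.HTree.ch w j) V) := by rw [hlab]; exact hl
    have hs0 : LL.HTree.lev V + LL.HTree.lev (LL.HTree.ch w j) = 0 := by
      rw [LL.lev_ch]; omega
    set w' := LL.HTree.ch w j with hw'
    by_cases hin : D.inI V w'
    · rw [Isl.T_of_in D y V w' hin]
      have hnsp : ¬ SP LL.e0 (D.X.swap.lab y w' V) := by
        by_cases hp : (tr T).le ((tr T).par w') D.B
        · have := Isl.lab_of_in (D := D.swap) (E := LL.e0) (x := y) (V := w') (w := V) ok1 hp hin.1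
            (by change 0 ≤ LL.HTree.lev w' + LL.HTree.lev V; omega)
          rw [this] at hl'
          exact hl'
        · have hB' : w' = D.B := HTree.eq_of_le_not_par hin.2 hp
          have hsB : 0 ≤ (tr T).lev D.swap.A + (tr T).lev V := by
            change 0 ≤ LL.HTree.lev D.B + LL.HTree.lev V
            rw [← hB']
            omega
          have h3 := Isl.lab_of_corner (D := D.swap) (E := LL.e0) (x := y) (w := V) ok1 hin.1 hsB
          rw [hB'] at hl' ⊢
          rw [show D.swap.lab LL.e0 y D.B V = _ from h3] at hl'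
          exact (cut_ne_E (fun h => hl' (Or.inr h))).1
      have := ok1.k2 y V w' hin.1 hin.2
        (by change 0 ≤ LL.HTree.lev V + LL.HTree.lev w'; omega) hnsp
      rw [this]
      exact hK.pos V w' hs0
    · rw [Isl.T_of_not D y V w' hin]
      have e : D.swap.end1 LL.e0 y w' V = w' := Isl.end1_of_ne (fun h => hl' (Or.inl h))
      rw [e, if_neg (fun h => hl' (Or.inr h))]
      exact hK.pos V w' hs0
  · -- outside
    intro N hN V w ho
    have hN1 : 1 ≤ N := by have := (hN 0).1; omega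
    have hNB : ∀ x, (tr T).le (D.EB x) ((tr T).par^[N] D.B) := fun x =>
      HTree.lev_iter_le (hN x).2.le D.B
    have hNA : ∀ x, (tr T).le (D.swap.EB x) ((tr T).par^[N] D.swap.B) := fun x =>
      HTree.lev_iter_le (hN x).1.le D.A
    have ho' : ¬ LL.inBox (LL.HTree.up^[N] B) (LL.HTree.up^[N] A) w V := fun h => ho ⟨h.2, h.1⟩
    refine ⟨fun hs => ?_, fun hs => ⟨?_, ?_⟩⟩
    · change LL.Dat.mk _ _ _ = LL.Dat.mk _ _ _
      congr 1
      · funext x
        exact S_out hNB hN1 ok1 ho x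
      · funext y
        exact S_out (D := D.swap) hNA hN1 ok2 ho' y
      · funext x y
        obtain ⟨e1, e2⟩ := end_out (D := D) hNB hN1 ho x
        obtain ⟨e3, e4⟩ := end_out (D := D.swap) hNA hN1 ho' y
        change D.C LL.e0 x y V w = _
        have hnin : ¬ D.inI V w := fun h =>
          ho ⟨HTree.le_trans h.1 (HTree.le_iter _ _), HTree.le_trans h.2 (HTree.le_iter _ _)⟩
        have hoo : ¬ LL.inBox (LL.HTree.up^[N] A) (LL.HTree.up^[N] B)
            (LL.bend (fun V x => D.ab x V) V x) (LL.bend (fun V x => D.swap.ab x V) w y) := by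
          rintro ⟨⟨m, hm⟩, ⟨m', hm'⟩⟩
          apply ho
          unfold LL.bend at hm hm'
          exact ⟨⟨_, by rw [← hm, Function.iterate_add_apply]⟩,
            ⟨_, by rw [← hm', Function.iterate_add_apply]⟩⟩
        have hoo' : ¬ LL.inBox (LL.HTree.up^[N] B) (LL.HTree.up^[N] A)
            (LL.bend (fun V x => D.swap.ab x V) w y) (LL.bend (fun V x => D.ab x V) V x) :=
          fun h => hoo ⟨h.2, h.1⟩
        unfold Isl.C
        rw [if_neg hnin, e1, e3, JS_out hNB hoo x, JS_out (D := D.swap) hNA hoo' y]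
        split_ifs <;> rfl
    · funext x
      exact al_out hNB hN1 ho x
    · funext y
      exact al_out (D := D.swap) hNA hN1 ho' y

end Pool.Agent.Lamp76.Port
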