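import Mathlib

set_option autoImplicit false

namespace Pool.Agent.Lamp76

/-- a horofunction tree: every vertex has a parent one level higher and an index in `Q` -/
structure HTree (Q : Type) where
  V : Type
  lev : V → ℤ
  par : V → V
  idx : V → Q
  lev_par : ∀ v, lev (par v) = lev v + 1
  ext' : ∀ u v, par u = par v → idx u = idx v → u = v

namespace HTree

variable {Q : Type} (T : HTree Q)

/-- `u` is a descendant of `v` (or equal to it) -/
def le (u v : T.V) : Prop := ∃ n : ℕ, T.par^[n] u = v

variable {T}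

theorem le_refl (u : T.V) : T.le u u := ⟨0, rfl⟩

theorem le_par (u : T.V) : T.le u (T.par u) := ⟨1, rfl⟩

theorem le_trans {u v w : T.V} (h1 : T.le u v) (h2 : T.le v w) : T.le u w := by
  obtain ⟨n, rfl⟩ := h1
  obtain ⟨m, rfl⟩ := h2
  exact ⟨m + n, by rw [Function.iterate_add_apply]⟩

theorem lev_iter (n : ℕ) (u : T.V) : T.lev (T.par^[n] u) = T.lev u + n := by
  induction n generalizing u with
  | zero => simp
  | succ n ih =>
    rw [Function.iterate_succ_apply, ih, T.lev_par]
    push_cast
    ring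

theorem lev_le {u v : T.V} (h : T.le u v) : T.lev u ≤ T.lev v := by
  obtain ⟨n, rfl⟩ := h
  rw [lev_iter]
  omega

theorem eq_of_le_of_lev {u v : T.V} (h : T.le u v) (h2 : T.lev v ≤ T.lev u) : u = v := by
  obtain ⟨n, rfl⟩ := h
  rw [lev_iter] at h2
  have : n = 0 := by omega
  subst this
  rfl

theorem le_iff (u v : T.V) : T.le u v ↔ u = v ∨ T.le (T.par u) v := by
  constructor
  · rintro ⟨n, rfl⟩
    rcases n with _ | n
    · exact Or.inl rfl
    · exact Or.inr ⟨n, by rw [Function.iterate_succ_apply]⟩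
  · rintro (rfl | h)
    · exact le_refl _
    · exact le_trans (le_par u) h

theorem le_of_par_le {u v : T.V} (h : T.le (T.par u) v) : T.le u v := le_trans (le_par u) h

theorem not_par_le (u : T.V) : ¬ T.le (T.par u) u := by
  intro h
  have := lev_le h
  rw [T.lev_par] at this
  omega

theorem le_iter (n : ℕ) (u : T.V) : T.le u (T.par^[n] u) := ⟨n, rfl⟩

theorem lev_iter_le {n m : ℕ} (h : n ≤ m) (u : T.V) : T.le (T.par^[n] u) (T.par^[m] u) :=
  ⟨m - n, by rw [← Function.iterate_add_apply]; congr 1; omega⟩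

/-- if `u ≤ a` but `par u` is not, then `u = a` -/
theorem eq_of_le_not_par {u a : T.V} (h : T.le u a) (h2 : ¬ T.le (T.par u) a) : u = a := by
  rcases (le_iff u a).1 h with h3 | h3
  · exact h3
  · exact absurd h3 h2

/-- the end of the run above `u` of vertices with `L = 0` -/
noncomputable def runEnd [Zero Q] (T : HTree Q) (L : T.V → Q) (u : T.V) : T.V :=
  open Classical in
  if h : ∃ n : ℕ, L (T.par^[n] u) ≠ 0 then T.par^[Nat.find h] u else u

variable [Zero Q]

theorem runEnd_of_ne {L : T.V → Q} {u : T.V} (h : L u ≠ 0) : T.runEnd L u = u := by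
  classical
  unfold runEnd
  have h' : ∃ n : ℕ, L (T.par^[n] u) ≠ 0 := ⟨0, h⟩
  rw [dif_pos h']
  have : Nat.find h' = 0 := by
    rw [Nat.find_eq_zero]
    exact h
  rw [this]
  rfl

theorem runEnd_of_eq {L : T.V → Q} {u : T.V} (h : L u = 0) :
    T.runEnd L (T.par u) = T.runEnd L u ∨ ∀ n : ℕ, L (T.par^[n] u) = 0 := by
  classical
  by_cases h1 : ∃ n : ℕ, L (T.par^[n] (T.par u)) ≠ 0
  · left
    have h2 : ∃ n : ℕ, L (T.par^[n] u) ≠ 0 := by
      obtain ⟨n, hn⟩ := h1
      exact ⟨n + 1, by rwa [Function.iterate_succ_apply]⟩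
    unfold runEnd
    rw [dif_pos h1, dif_pos h2]
    have e : Nat.find h2 = Nat.find h1 + 1 := by
      rw [Nat.find_eq_iff]
      refine ⟨?_, ?_⟩
      · have := Nat.find_spec h1
        rwa [Function.iterate_succ_apply]
      · intro n hn
        rcases n with _ | n
        · simpa using h
        · have := Nat.find_min h1 (m := n) (by omega)
          rwa [Function.iterate_succ_apply]
    rw [e, Function.iterate_succ_apply]
  · right
    push Not at h1
    intro n
    rcases n with _ | n
    · exact h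
    · have := h1 n
      rwa [Function.iterate_succ_apply]

theorem runEnd_par {L : T.V → Q} {u : T.V} (h : L u = 0) (hex : ∃ n : ℕ, L (T.par^[n] u) ≠ 0) :
    T.runEnd L (T.par u) = T.runEnd L u := by
  rcases runEnd_of_eq h with h1 | h1
  · exact h1
  · obtain ⟨n, hn⟩ := hex
    exact absurd (h1 n) hn

theorem runEnd_ne {L : T.V → Q} {u : T.V} (hex : ∃ n : ℕ, L (T.par^[n] u) ≠ 0) :
    L (T.runEnd L u) ≠ 0 := by
  classical
  unfold runEnd
  rw [dif_pos hex]
  exact Nat.find_spec hex

theorem le_runEnd (L : T.V → Q) (u : T.V) : T.le u (T.runEnd L u) := by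
  classical
  unfold runEnd
  split_ifs with h
  · exact le_iter _ _
  · exact le_refl _

theorem runEnd_congr {L L' : T.V → Q} {u : T.V}
    (h : ∀ n : ℕ, L (T.par^[n] u) = L' (T.par^[n] u)) : T.runEnd L u = T.runEnd L' u := by
  classical
  unfold runEnd
  by_cases h1 : ∃ n : ℕ, L (T.par^[n] u) ≠ 0
  · have h2 : ∃ n : ℕ, L' (T.par^[n] u) ≠ 0 := by
      obtain ⟨n, hn⟩ := h1
      exact ⟨n, by rwa [← h n]⟩
    rw [dif_pos h1, dif_pos h2]
    have : Nat.find h1 = Nat.find h2 := Nat.find_congr' (fun {n} => by rw [h n])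
    rw [this]
  · have h2 : ¬ ∃ n : ℕ, L' (T.par^[n] u) ≠ 0 := by
      rintro ⟨n, hn⟩
      exact h1 ⟨n, by rwa [h n]⟩
    rw [dif_neg h1, dif_neg h2]

/-- induction along a run -/
theorem runEnd_induct {L : T.V → Q} {u : T.V} (P : T.V → Prop) (h0 : P u)
    (hs : ∀ v, T.le u v → P v → L v = 0 → P (T.par v)) : P (T.runEnd L u) := by
  classical
  unfold runEnd
  split_ifs with h
  · have : ∀ n : ℕ, n ≤ Nat.find h → P (T.par^[n] u) := by
      intro n
      induction n with
      | zero => intro _; exact h0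
      | succ n ih =>
        intro hn
        have h1 := Nat.find_min h (m := n) (by omega)
        push Not at h1
        rw [Function.iterate_succ_apply']
        exact hs _ (le_iter _ _) (ih (by omega)) h1
    exact this _ (_root_.le_refl _)
  · exact h0

end HTree

end Pool.Agent.Lamp76
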